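import Mathlib

/-! Finite entropy calculus.  `Om` a finite type, `m : Om → ℝ` a probability mass function,
random variables are functions on `Om`; the entropy only depends on the kernel of the function. -/

namespace H2INV

open Finset BigOperators

noncomputable section

universe u v w

variable {Om : Type*} [Fintype Om] {Om' : Type*} [Fintype Om']

/-- probability mass functions -/
structure IsPM {Om : Type*} [Fintype Om] (m : Om → ℝ) : Prop where
  nonneg : ∀ w, 0 ≤ m w
  sum_one : ∑ w, m w = 1

open Classical in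
/-- mass of the fibre of `f` through `w` -/
def fib {α : Type*} (m : Om → ℝ) (f : Om → α) (w : Om) : ℝ :=
  ∑ w', if f w' = f w then m w' else 0

/-- Shannon entropy (natural logarithm) of the random variable `f` -/
def ent {α : Type*} (m : Om → ℝ) (f : Om → α) : ℝ :=
  ∑ w, m w * (-Real.log (fib m f w))

lemma fib_congr {α β : Type*} (m : Om → ℝ) {f : Om → α} {g : Om → β}
    (h : ∀ w w', f w = f w' ↔ g w = g w') (w : Om) : fib m f w = fib m g w := by
  classical
  unfold fib
  exact Finset.sum_congr rfl fun w' _ => by simp only [h w' w]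

/-- the entropy only depends on the kernel -/
lemma ent_congr {α β : Type*} (m : Om → ℝ) {f : Om → α} {g : Om → β}
    (h : ∀ w w', f w = f w' ↔ g w = g w') : ent m f = ent m g := by
  unfold ent
  exact Finset.sum_congr rfl fun w _ => by rw [fib_congr m h]

lemma fib_nonneg {α : Type*} {m : Om → ℝ} (hm : IsPM m) (f : Om → α) (w : Om) :
    0 ≤ fib m f w := by
  classical
  exact Finset.sum_nonneg fun w' _ => by split_ifs; exacts [hm.nonneg w', le_rfl]

lemma le_fib {α : Type*} {m : Om → ℝ} (hm : IsPM m) (f : Om → α) (w : Om) :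
    m w ≤ fib m f w := by
  classical
  unfold fib
  calc m w = (if f w = f w then m w else 0) := by simp
    _ ≤ _ := Finset.single_le_sum
        (f := fun w' => if f w' = f w then m w' else 0)
        (fun w' _ => by split_ifs; exacts [hm.nonneg w', le_rfl]) (Finset.mem_univ w)

lemma fib_le_one {α : Type*} {m : Om → ℝ} (hm : IsPM m) (f : Om → α) (w : Om) :
    fib m f w ≤ 1 := by
  classical
  rw [← hm.sum_one]
  exact Finset.sum_le_sum fun w' _ => by split_ifs; exacts [le_rfl, hm.nonneg w']

lemma fib_pos {α : Type*} {m : Om → ℝ} (hm : IsPM m) (f : Om → α) {w : Om} (hw : 0 < m w) :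
    0 < fib m f w := lt_of_lt_of_le hw (le_fib hm f w)

/-- coarser functions have larger fibres -/
lemma fib_mono {α β : Type*} {m : Om → ℝ} (hm : IsPM m) {f : Om → α} {g : Om → β}
    (h : ∀ w w', g w = g w' → f w = f w') (w : Om) : fib m g w ≤ fib m f w := by
  classical
  unfold fib
  refine Finset.sum_le_sum fun w' _ => ?_
  by_cases h1 : g w' = g w
  · rw [if_pos h1, if_pos (h _ _ h1)]
  · rw [if_neg h1]; split_ifs; exacts [hm.nonneg w', le_rfl]

lemma ent_nonneg {α : Type*} {m : Om → ℝ} (hm : IsPM m) (f : Om → α) : 0 ≤ ent m f :=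
  Finset.sum_nonneg fun w _ => mul_nonneg (hm.nonneg w)
    (neg_nonneg.2 (Real.log_nonpos (fib_nonneg hm f w) (fib_le_one hm f w)))

/-- a function of `g` has smaller entropy -/
lemma ent_mono {α β : Type*} {m : Om → ℝ} (hm : IsPM m) {f : Om → α} {g : Om → β}
    (h : ∀ w w', g w = g w' → f w = f w') : ent m f ≤ ent m g := by
  unfold ent
  refine Finset.sum_le_sum fun w _ => ?_
  rcases (hm.nonneg w).eq_or_lt with h0 | h0
  · rw [← h0]; simp
  · exact mul_le_mul_of_nonneg_left
      (neg_le_neg (Real.log_le_log (fib_pos hm g h0) (fib_mono hm h w))) h0.le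

lemma ent_const {α : Type*} {m : Om → ℝ} (hm : IsPM m) {f : Om → α}
    (h : ∀ w w', f w = f w') : ent m f = 0 := by
  classical
  unfold ent
  refine Finset.sum_eq_zero fun w _ => ?_
  have : fib m f w = 1 := by
    unfold fib
    rw [← hm.sum_one]
    exact Finset.sum_congr rfl fun w' _ => by rw [if_pos (h w' w)]
  rw [this]; simp

/-- pairs -/
def pr {α β : Type*} (f : Om → α) (g : Om → β) : Om → α × β := fun w => (f w, g w)

omit [Fintype Om] in
@[simp] lemma pr_eq {α β : Type*} (f : Om → α) (g : Om → β) (w w' : Om) :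
    pr f g w = pr f g w' ↔ f w = f w' ∧ g w = g w' := by simp [pr, Prod.ext_iff]

/-- key counting lemma behind submodularity -/
lemma sum_ratio_le {α β γ : Type*} {m : Om → ℝ} (hm : IsPM m) (f : Om → α) (g : Om → β)
    (h : Om → γ) :
    ∑ w, m w * (fib m (pr f h) w * fib m (pr g h) w /
      (fib m (pr (pr f g) h) w * fib m h w)) ≤ 1 := by
  classical
  -- expand the product of the two fibre masses
  have e1 : ∀ w, m w * (fib m (pr f h) w * fib m (pr g h) w /
      (fib m (pr (pr f g) h) w * fib m h w)) =
      ∑ a, ∑ b, (if (f a = f w ∧ h a = h w) ∧ (g b = g w ∧ h b = h w) then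
        m a * m b * (m w / (fib m (pr (pr f g) h) w * fib m h w)) else 0) := by
    intro w
    have : fib m (pr f h) w * fib m (pr g h) w =
        ∑ a, ∑ b, (if (f a = f w ∧ h a = h w) ∧ (g b = g w ∧ h b = h w) then m a * m b else 0) := by
      unfold fib
      rw [Finset.sum_mul_sum]
      refine Finset.sum_congr rfl fun a _ => Finset.sum_congr rfl fun b _ => ?_
      simp only [pr_eq]
      by_cases h1 : f a = f w ∧ h a = h w <;> by_cases h2 : g b = g w ∧ h b = h w <;>
        simp [h1, h2]
    rw [this, mul_div_assoc', mul_comm (m w), mul_div_assoc, Finset.sum_mul]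
    refine Finset.sum_congr rfl fun a _ => ?_
    rw [Finset.sum_mul]
    refine Finset.sum_congr rfl fun b _ => ?_
    split_ifs <;> simp
  rw [Finset.sum_congr rfl fun w _ => e1 w, Finset.sum_comm]
  -- now sum over a, b, w
  have e2 : ∀ a b, ∑ w, (if (f a = f w ∧ h a = h w) ∧ (g b = g w ∧ h b = h w) then
        m a * m b * (m w / (fib m (pr (pr f g) h) w * fib m h w)) else 0) ≤
        if h b = h a then m a * m b / fib m h a else 0 := by
    intro a b
    by_cases hab : h b = h a
    · rw [if_pos hab]
      by_cases hex : ∃ w0, (f a = f w0 ∧ h a = h w0) ∧ (g b = g w0 ∧ h b = h w0)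
      · obtain ⟨w0, hw0⟩ := hex
        have key : ∀ w, (if (f a = f w ∧ h a = h w) ∧ (g b = g w ∧ h b = h w) then
            m a * m b * (m w / (fib m (pr (pr f g) h) w * fib m h w)) else 0) =
            (m a * m b / (fib m (pr (pr f g) h) w0 * fib m h a)) *
            (if pr (pr f g) h w = pr (pr f g) h w0 then m w else 0) := by
          intro w
          by_cases hw : (f a = f w ∧ h a = h w) ∧ (g b = g w ∧ h b = h w)
          · have hcl : pr (pr f g) h w = pr (pr f g) h w0 := by
              simp only [pr_eq]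
              exact ⟨⟨hw.1.1.symm.trans hw0.1.1, hw.2.1.symm.trans hw0.2.1⟩,
                hw.1.2.symm.trans hw0.1.2⟩
            have hf1 : fib m (pr (pr f g) h) w = fib m (pr (pr f g) h) w0 := by
              unfold fib; rw [hcl]
            have hf2 : fib m h w = fib m h a := by unfold fib; rw [hw.1.2]
            rw [if_pos hw, if_pos hcl, hf1, hf2]; ring
          · have hcl : ¬ pr (pr f g) h w = pr (pr f g) h w0 := by
              simp only [pr_eq]
              rintro ⟨⟨h1, h2⟩, h3⟩
              exact hw ⟨⟨hw0.1.1.trans h1.symm, hw0.1.2.trans h3.symm⟩,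
                ⟨hw0.2.1.trans h2.symm, hw0.2.2.trans h3.symm⟩⟩
            rw [if_neg hw, if_neg hcl]; ring
        rw [Finset.sum_congr rfl fun w _ => key w, ← Finset.mul_sum]
        have : (∑ w, if pr (pr f g) h w = pr (pr f g) h w0 then m w else 0) =
          fib m (pr (pr f g) h) w0 := by
            unfold fib
            exact Finset.sum_congr rfl fun w _ => by congr
        rw [this]
        rcases (fib_nonneg hm (pr (pr f g) h) w0).eq_or_lt with h0 | h0
        · rw [← h0]; simp
          exact div_nonneg (mul_nonneg (hm.nonneg a) (hm.nonneg b)) (fib_nonneg hm h a)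
        · apply le_of_eq
          field_simp
      · refine le_trans (le_of_eq (Finset.sum_eq_zero fun w _ => ?_)) ?_
        · rw [if_neg fun hw => hex ⟨w, hw⟩]
        · exact div_nonneg (mul_nonneg (hm.nonneg a) (hm.nonneg b)) (fib_nonneg hm h a)
    · rw [if_neg hab]
      refine le_of_eq (Finset.sum_eq_zero fun w _ => ?_)
      rw [if_neg]
      rintro ⟨⟨_, h1⟩, ⟨_, h2⟩⟩
      exact hab (h2.trans h1.symm)
  calc _ ≤ ∑ a, ∑ b, (if h b = h a then m a * m b / fib m h a else 0) := by
        refine Finset.sum_le_sum fun a _ => ?_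
        rw [Finset.sum_comm]
        exact Finset.sum_le_sum fun b _ => e2 a b
    _ = ∑ a, (m a / fib m h a) * fib m h a := by
        refine Finset.sum_congr rfl fun a _ => ?_
        unfold fib
        rw [Finset.mul_sum]
        refine Finset.sum_congr rfl fun b _ => ?_
        split_ifs
        · ring
        · ring
    _ ≤ ∑ a, m a := by
        refine Finset.sum_le_sum fun a _ => ?_
        rcases (fib_nonneg hm h a).eq_or_lt with h0 | h0
        · rw [← h0]; simp; exact hm.nonneg a
        · rw [div_mul_cancel₀ _ h0.ne']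
    _ = 1 := hm.sum_one

/-- E3: submodularity of the entropy -/
lemma ent_submod {α β γ : Type*} {m : Om → ℝ} (hm : IsPM m) (f : Om → α) (g : Om → β)
    (h : Om → γ) :
    ent m (pr (pr f g) h) + ent m h ≤ ent m (pr f h) + ent m (pr g h) := by
  have key : ∀ w, m w * (-Real.log (fib m (pr (pr f g) h) w)) + m w * (-Real.log (fib m h w))
      ≤ m w * (-Real.log (fib m (pr f h) w)) + m w * (-Real.log (fib m (pr g h) w)) +
        (m w * (fib m (pr f h) w * fib m (pr g h) w /
      (fib m (pr (pr f g) h) w * fib m h w)) - m w) := by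
    intro w
    rcases (hm.nonneg w).eq_or_lt with h0 | h0
    · rw [← h0]; simp
    · have p1 := fib_pos hm (pr (pr f g) h) h0
      have p2 := fib_pos hm h h0
      have p3 := fib_pos hm (pr f h) h0
      have p4 := fib_pos hm (pr g h) h0
      have h1 := Real.log_le_sub_one_of_pos (div_pos (mul_pos p3 p4) (mul_pos p1 p2))
      rw [Real.log_div (mul_pos p3 p4).ne' (mul_pos p1 p2).ne', Real.log_mul p3.ne' p4.ne',
        Real.log_mul p1.ne' p2.ne'] at h1
      nlinarith [mul_le_mul_of_nonneg_left h1 h0.le]
  have h2 := Finset.sum_le_sum fun w (_ : w ∈ Finset.univ) => key w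
  simp only [Finset.sum_add_distrib, Finset.sum_sub_distrib] at h2
  have h3 := sum_ratio_le hm f g h
  rw [hm.sum_one] at h2
  unfold ent
  linarith

/-- the law of `f` -/
def law {α : Type*} (m : Om → ℝ) (f : Om → α) (x : α) : ℝ :=
  by classical exact ∑ w, if f w = x then m w else 0

lemma fib_eq_law {α : Type*} (m : Om → ℝ) (f : Om → α) (w : Om) : fib m f w = law m f (f w) := by
  unfold fib law
  exact Finset.sum_congr rfl fun w _ => by congr

lemma law_nonneg {α : Type*} {m : Om → ℝ} (hm : IsPM m) (f : Om → α) (x : α) :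
    0 ≤ law m f x := by
  classical
  unfold law
  exact Finset.sum_nonneg fun w' _ => by split_ifs; exacts [hm.nonneg w', le_rfl]

lemma sum_law_mul {α : Type*} [Fintype α] (m : Om → ℝ) (f : Om → α) (u : α → ℝ) :
    ∑ x, law m f x * u x = ∑ w, m w * u (f w) := by
  classical
  unfold law
  simp only [Finset.sum_mul]
  rw [Finset.sum_comm]
  refine Finset.sum_congr rfl fun w _ => ?_
  simp only [ite_mul, zero_mul]
  have : ∀ x, (if f w = x then m w * u x else 0) = if f w = x then m w * u (f w) else 0 := by
    intro x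
    split_ifs with hx
    · rw [hx]
    · rfl
  rw [Finset.sum_congr rfl fun x _ => this x]
  rw [Finset.sum_ite_eq]
  simp

lemma isPM_law {α : Type*} [Fintype α] {m : Om → ℝ} (hm : IsPM m) (f : Om → α) :
    IsPM (law m f) where
  nonneg := law_nonneg hm f
  sum_one := by
    have := sum_law_mul m f (fun _ => 1)
    simpa [hm.sum_one] using this

/-- E7a: entropy as a sum over values -/
lemma ent_eq_sum {α : Type*} [Fintype α] (m : Om → ℝ) (f : Om → α) :
    ent m f = ∑ x, Real.negMulLog (law m f x) := by
  unfold ent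
  have := sum_law_mul m f (fun x => -Real.log (law m f x))
  simp only [fib_eq_law]
  rw [← this]
  exact Finset.sum_congr rfl fun x _ => by rw [Real.negMulLog]; ring

/-- law of a composition -/
lemma law_comp {α β : Type*} [Fintype α] (m : Om → ℝ) (f : Om → α) (g : α → β) :
    law m (fun w => g (f w)) = law (law m f) g := by
  classical
  funext y
  have h1 := sum_law_mul m f (fun x => if g x = y then 1 else 0)
  unfold law at h1 ⊢
  simp only [mul_ite, mul_one, mul_zero] at h1
  rw [← Finset.sum_congr rfl (fun w _ => by congr), ← h1]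

/-- E7: the entropy only depends on the law -/
lemma ent_eq_of_law {α : Type*} [Fintype α] {m : Om → ℝ} {m' : Om' → ℝ} {f : Om → α}
    {g : Om' → α} (h : ∀ x, law m f x = law m' g x) : ent m f = ent m' g := by
  rw [ent_eq_sum, ent_eq_sum]
  exact Finset.sum_congr rfl fun x _ => by rw [h x]

/-- E7': measure preserving maps: `φ` pushes `m'` to `m` -/
def MP (m' : Om' → ℝ) (φ : Om' → Om) (m : Om → ℝ) : Prop := ∀ w, law m' φ w = m w

lemma fib_comp_of_mp {α : Type*} {m : Om → ℝ} {m' : Om' → ℝ} {φ : Om' → Om} (h : MP m' φ m)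
    (f : Om → α) (w : Om') : fib m' (fun w => f (φ w)) w = fib m f (φ w) := by
  classical
  have h1 := sum_law_mul m' φ (fun x => if f x = f (φ w) then 1 else 0)
  simp only [mul_ite, mul_one, mul_zero] at h1
  unfold fib
  rw [← Finset.sum_congr rfl (fun w _ => by congr), ← h1]
  exact Finset.sum_congr rfl fun x _ => by rw [h x]

lemma ent_comp_of_mp {α : Type*} {m : Om → ℝ} {m' : Om' → ℝ} {φ : Om' → Om} (h : MP m' φ m)
    (f : Om → α) : ent m' (fun w => f (φ w)) = ent m f := by
  unfold ent
  have := sum_law_mul m' φ (fun x => -Real.log (fib m f x))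
  simp only [fib_comp_of_mp h]
  rw [← this]
  exact Finset.sum_congr rfl fun x _ => by rw [h x]

omit [Fintype Om] in
/-- a bijection preserving the weights is measure preserving -/
lemma mp_of_equiv {m : Om → ℝ} {m' : Om' → ℝ} (φ : Om' ≃ Om) (h : ∀ w, m (φ w) = m' w) :
    MP m' φ m := by
  classical
  intro w
  unfold law
  rw [Finset.sum_eq_single (φ.symm w)]
  · simp [← h]
  · intro b _ hb
    rw [if_neg]
    rintro rfl
    simp at hb
  · simp

/-- E5: products -/
def prodPM (m : Om → ℝ) (m' : Om' → ℝ) : Om × Om' → ℝ := fun w => m w.1 * m' w.2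

lemma isPM_prod {m : Om → ℝ} {m' : Om' → ℝ} (hm : IsPM m) (hm' : IsPM m') :
    IsPM (prodPM m m') where
  nonneg w := mul_nonneg (hm.nonneg _) (hm'.nonneg _)
  sum_one := by
    unfold prodPM
    rw [Fintype.sum_prod_type]
    simp only [← Finset.mul_sum, hm'.sum_one, mul_one, hm.sum_one]

lemma fib_prod {α β : Type*} (m : Om → ℝ) (m' : Om' → ℝ) (f : Om → α) (g : Om' → β)
    (w : Om × Om') :
    fib (prodPM m m') (fun w => (f w.1, g w.2)) w = fib m f w.1 * fib m' g w.2 := by
  classical
  unfold fib prodPM
  rw [Fintype.sum_prod_type, Finset.sum_mul_sum]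
  refine Finset.sum_congr rfl fun a _ => Finset.sum_congr rfl fun b _ => ?_
  simp only [Prod.mk.injEq]
  by_cases h1 : f a = f w.1 <;> by_cases h2 : g b = g w.2 <;> simp [h1, h2]

lemma ent_prod {α β : Type*} {m : Om → ℝ} {m' : Om' → ℝ} (hm : IsPM m) (hm' : IsPM m')
    (f : Om → α) (g : Om' → β) :
    ent (prodPM m m') (fun w => (f w.1, g w.2)) = ent m f + ent m' g := by
  unfold ent
  simp only [fib_prod]
  rw [Fintype.sum_prod_type]
  have h1 : ∀ a b, prodPM m m' (a, b) * (-Real.log (fib m f a * fib m' g b)) =
      m a * (-Real.log (fib m f a)) * m' b + m a * (m' b * (-Real.log (fib m' g b))) := by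
    intro a b
    unfold prodPM
    rcases (hm.nonneg a).eq_or_lt with h0 | h0
    · simp [← h0]
    rcases (hm'.nonneg b).eq_or_lt with h0' | h0'
    · simp [← h0']
    rw [Real.log_mul (fib_pos hm f h0).ne' (fib_pos hm' g h0').ne']
    simp only
    ring
  simp only [h1, Finset.sum_add_distrib, ← Finset.mul_sum, hm'.sum_one, mul_one]
  rw [← Finset.sum_mul, hm.sum_one, one_mul]

lemma mp_fst {m : Om → ℝ} {m' : Om' → ℝ} (hm' : IsPM m') : MP (prodPM m m') Prod.fst m := by
  classical
  intro w
  unfold law prodPM
  rw [Fintype.sum_prod_type, Finset.sum_eq_single w]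
  · simp [← Finset.mul_sum, hm'.sum_one]
  · intro b _ hb; simp [hb]
  · simp

lemma mp_snd {m : Om → ℝ} {m' : Om' → ℝ} (hm : IsPM m) : MP (prodPM m m') Prod.snd m' := by
  classical
  intro w
  unfold law prodPM
  rw [Fintype.sum_prod_type]
  have : ∀ a, (∑ b, if b = w then m a * m' b else 0) = m a * m' w := by
    intro a; rw [Finset.sum_ite_eq']; simp
  simp only [this, ← Finset.sum_mul, hm.sum_one, one_mul]

lemma sum_div_fib_le {α : Type*} [Fintype α] {m : Om → ℝ} (hm : IsPM m) (f : Om → α) :
    ∑ w, m w / fib m f w ≤ Fintype.card α := by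
  classical
  have h1 := sum_law_mul m f (fun x => 1 / law m f x)
  simp only [fib_eq_law]
  have h2 : ∑ w, m w / law m f (f w) = ∑ w, m w * (1 / law m f (f w)) :=
    Finset.sum_congr rfl fun w _ => by ring
  rw [h2, ← h1]
  calc ∑ x, law m f x * (1 / law m f x) ≤ ∑ _x : α, (1 : ℝ) := by
        refine Finset.sum_le_sum fun x _ => ?_
        rcases (law_nonneg hm f x).eq_or_lt with h0 | h0
        · rw [← h0]; simp
        · rw [mul_one_div_cancel h0.ne']
    _ = Fintype.card α := by simp

/-- E4 -/
lemma ent_le_log_card {α : Type*} [Fintype α] [Nonempty α] {m : Om → ℝ} (hm : IsPM m)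
    (f : Om → α) : ent m f ≤ Real.log (Fintype.card α) := by
  have hc : (0 : ℝ) < Fintype.card α := by exact_mod_cast Fintype.card_pos
  have key : ∀ w, m w * (-Real.log (fib m f w)) ≤
      m w * Real.log (Fintype.card α) + (m w / fib m f w / Fintype.card α - m w) := by
    intro w
    rcases (hm.nonneg w).eq_or_lt with h0 | h0
    · rw [← h0]; simp
    · have p1 := fib_pos hm f h0
      have h1 := Real.log_le_sub_one_of_pos (inv_pos.2 (mul_pos p1 hc))
      rw [Real.log_inv, Real.log_mul p1.ne' hc.ne'] at h1
      have h2 := mul_le_mul_of_nonneg_left h1 h0.le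
      have h3 : m w * ((fib m f w * (Fintype.card α : ℝ))⁻¹ - 1) =
          m w / fib m f w / Fintype.card α - m w := by
        field_simp
      rw [h3] at h2
      linarith
  have h2 := Finset.sum_le_sum fun w (_ : w ∈ Finset.univ) => key w
  simp only [Finset.sum_add_distrib, Finset.sum_sub_distrib, ← Finset.sum_div, ← Finset.sum_mul,
    hm.sum_one, one_mul] at h2
  have h3 : (∑ w, m w / fib m f w) / (Fintype.card α : ℝ) ≤ 1 := by
    rw [div_le_one hc]; exact sum_div_fib_le hm f
  unfold ent
  linarith

/-- conditional entropy -/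
def cent {α β : Type*} (m : Om → ℝ) (f : Om → α) (g : Om → β) : ℝ := ent m (pr f g) - ent m g

/-- E6: the conditional law given `g = b` -/
def condPM {β : Type*} (m : Om → ℝ) (g : Om → β) (b : β) : Om → ℝ :=
  by classical exact fun w => if g w = b then m w / law m g b else 0

lemma isPM_cond {β : Type*} {m : Om → ℝ} (hm : IsPM m) (g : Om → β) {b : β}
    (hb : 0 < law m g b) : IsPM (condPM m g b) where
  nonneg w := by
    unfold condPM
    split_ifs
    · exact div_nonneg (hm.nonneg w) hb.le
    · exact le_rfl
  sum_one := by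
    classical
    unfold condPM
    have : ∀ w, (if g w = b then m w / law m g b else 0) =
        (if g w = b then m w else 0) / law m g b := by
      intro w; split_ifs <;> simp
    rw [Finset.sum_congr rfl fun w _ => this w, ← Finset.sum_div]
    exact div_self hb.ne'

lemma law_le_one {α : Type*} {m : Om → ℝ} (hm : IsPM m) (f : Om → α) (x : α) :
    law m f x ≤ 1 := by
  classical
  unfold law
  rw [← hm.sum_one]
  exact Finset.sum_le_sum fun w' _ => by split_ifs; exacts [le_rfl, hm.nonneg w']

lemma le_law {α : Type*} {m : Om → ℝ} (hm : IsPM m) (f : Om → α) (w : Om) :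
    m w ≤ law m f (f w) := by rw [← fib_eq_law]; exact le_fib hm f w

lemma law_cond {α β : Type*} (m : Om → ℝ) (f : Om → α) (g : Om → β) (a : α) (b : β) :
    law (condPM m g b) f a = law m (pr f g) (a, b) / law m g b := by
  classical
  unfold law condPM
  rw [Finset.sum_div]
  refine Finset.sum_congr rfl fun w _ => ?_
  by_cases h1 : f w = a <;> by_cases h2 : g w = b <;> simp [pr, h1, h2, law]

/-- E6: conditional entropy as an average -/
lemma cent_eq_sum {α β : Type*} [Fintype β] {m : Om → ℝ} (hm : IsPM m) (f : Om → α)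
    (g : Om → β) : cent m f g = ∑ b, law m g b * ent (condPM m g b) f := by
  classical
  have h1 : ∀ b, law m g b * ent (condPM m g b) f =
      ∑ w, if g w = b then m w * (-Real.log (fib m (pr f g) w) + Real.log (fib m g w)) else 0 := by
    intro b
    rcases (law_nonneg hm g b).eq_or_lt with h0 | h0
    · rw [← h0, zero_mul]
      symm
      refine Finset.sum_eq_zero fun w _ => ?_
      split_ifs with hw
      · have h2 := le_law hm g w
        rw [hw, ← h0] at h2
        rw [le_antisymm h2 (hm.nonneg w), zero_mul]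
      · rfl
    · unfold ent
      rw [Finset.mul_sum]
      refine Finset.sum_congr rfl fun w _ => ?_
      rw [fib_eq_law (condPM m g b), law_cond]
      split_ifs with hw
      · rcases (hm.nonneg w).eq_or_lt with h2 | h2
        · simp [condPM, ← h2]
        have p1 := fib_pos hm (pr f g) h2
        have e1 : fib m (pr f g) w = law m (pr f g) (f w, b) := by
          rw [fib_eq_law]; simp [pr, hw]
        have e2 : fib m g w = law m g b := by rw [fib_eq_law, hw]
        rw [e1] at p1
        rw [e1, e2, Real.log_div p1.ne' h0.ne']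
        simp only [condPM, hw, if_true]
        field_simp
        ring
      · simp [condPM, hw]
  rw [Finset.sum_congr rfl fun b _ => h1 b, Finset.sum_comm]
  unfold cent ent
  rw [← Finset.sum_sub_distrib]
  refine Finset.sum_congr rfl fun w _ => ?_
  rw [Finset.sum_ite_eq]
  simp only [Finset.mem_univ, if_true]
  ring

/-- E8: two conditionally independent copies over the common value of `c` -/
def cprod {γ : Type*} (m : Om → ℝ) (c : Om → γ) : Om × Om → ℝ :=
  by classical exact fun w => if c w.1 = c w.2 then m w.1 * m w.2 / fib m c w.1 else 0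

lemma cprod_swap {γ : Type*} (m : Om → ℝ) (c : Om → γ) (w : Om × Om) :
    cprod m c w.swap = cprod m c w := by
  classical
  unfold cprod
  by_cases h : c w.1 = c w.2
  · have : fib m c w.2 = fib m c w.1 := by rw [fib_eq_law, fib_eq_law, h]
    simp [h, this, mul_comm]
  · have h' : ¬ c w.2 = c w.1 := fun h1 => h h1.symm
    simp [h, h']

lemma cprod_sum_snd {γ : Type*} {m : Om → ℝ} (hm : IsPM m) (c : Om → γ) (a : Om) :
    ∑ b, cprod m c (a, b) = m a := by
  classical
  unfold cprod
  have : ∀ b, (if c (a, b).1 = c (a, b).2 then m (a, b).1 * m (a, b).2 / fib m c (a, b).1 else 0)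
      = m a / fib m c a * (if c b = c a then m b else 0) := by
    intro b
    by_cases h : c a = c b
    · simp [h]; ring
    · have h' : ¬ c b = c a := fun h1 => h h1.symm
      simp [h, h']
  rw [Finset.sum_congr rfl fun b _ => this b, ← Finset.mul_sum]
  rcases (hm.nonneg a).eq_or_lt with h0 | h0
  · simp [← h0]
  · have : (∑ b, if c b = c a then m b else 0) = fib m c a := by
      unfold fib
      exact Finset.sum_congr rfl fun w _ => by congr
    rw [this, div_mul_cancel₀ _ (fib_pos hm c h0).ne']

lemma isPM_cprod {γ : Type*} {m : Om → ℝ} (hm : IsPM m) (c : Om → γ) : IsPM (cprod m c) where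
  nonneg w := by
    unfold cprod
    split_ifs
    · exact div_nonneg (mul_nonneg (hm.nonneg _) (hm.nonneg _)) (fib_nonneg hm c _)
    · exact le_rfl
  sum_one := by
    rw [Fintype.sum_prod_type]
    simp only [cprod_sum_snd hm, hm.sum_one]

lemma mp_cprod_fst {γ : Type*} {m : Om → ℝ} (hm : IsPM m) (c : Om → γ) :
    MP (cprod m c) Prod.fst m := by
  classical
  intro w
  unfold law
  rw [Fintype.sum_prod_type, Finset.sum_eq_single w]
  · simpa using cprod_sum_snd hm c w
  · intro b _ hb; simp [hb]
  · simp

lemma mp_cprod_snd {γ : Type*} {m : Om → ℝ} (hm : IsPM m) (c : Om → γ) :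
    MP (cprod m c) Prod.snd m := by
  classical
  intro w
  unfold law
  rw [Fintype.sum_prod_type_right, Finset.sum_eq_single w]
  · have h := cprod_sum_snd hm c w
    have h2 : ∀ b, cprod m c (b, w) = cprod m c (w, b) := fun b => (cprod_swap m c (b, w)).symm
    simpa [h2] using h
  · intro b _ hb; simp [hb]
  · simp

/-- almost surely the two copies agree on `c` -/
lemma cprod_eq_zero {γ : Type*} (m : Om → ℝ) (c : Om → γ) {w : Om × Om} (h : c w.1 ≠ c w.2) :
    cprod m c w = 0 := by
  unfold cprod
  rw [if_neg h]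

lemma fib_cprod {α β γ : Type*} (m : Om → ℝ) (c : Om → γ) (f : Om → α)
    (g : Om → β) {w : Om × Om} (h : c w.1 = c w.2) :
    fib (cprod m c) (fun w => ((f w.1, g w.2), c w.1)) w =
      fib m (pr f c) w.1 * fib m (pr g c) w.2 / fib m c w.1 := by
  classical
  have hR1 : fib m (pr f c) w.1 = ∑ a, if f a = f w.1 ∧ c a = c w.1 then m a else 0 := by
    unfold fib; exact Finset.sum_congr rfl fun a _ => by simp only [pr, Prod.mk.injEq]
  have hR2 : fib m (pr g c) w.2 = ∑ a, if g a = g w.2 ∧ c a = c w.2 then m a else 0 := by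
    unfold fib; exact Finset.sum_congr rfl fun a _ => by simp only [pr, Prod.mk.injEq]
  have hL : fib (cprod m c) (fun w => ((f w.1, g w.2), c w.1)) w =
      ∑ a, ∑ b, if (f a = f w.1 ∧ g b = g w.2) ∧ c a = c w.1 then cprod m c (a, b) else 0 := by
    unfold fib
    rw [Fintype.sum_prod_type]
    refine Finset.sum_congr rfl fun a _ => Finset.sum_congr rfl fun b _ => ?_
    simp only [Prod.mk.injEq]
  rw [hR1, hR2, hL, Finset.sum_mul_sum, Finset.sum_div]
  refine Finset.sum_congr rfl fun a _ => ?_
  rw [Finset.sum_div]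
  refine Finset.sum_congr rfl fun b _ => ?_
  by_cases h1 : f a = f w.1
  · by_cases h2 : g b = g w.2
    · by_cases h3 : c a = c w.1
      · have h6 : fib m c a = fib m c w.1 := by rw [fib_eq_law, fib_eq_law, h3]
        by_cases h4 : c b = c w.2
        · have h5 : c a = c b := by rw [h3, h, h4]
          rw [if_pos ⟨⟨h1, h2⟩, h3⟩, if_pos ⟨h1, h3⟩, if_pos ⟨h2, h4⟩]
          unfold cprod
          rw [if_pos h5, h6]
        · have h5 : c a ≠ c b := by rw [h3, h]; exact fun h => h4 h.symm
          rw [cprod_eq_zero m c (w := (a, b)) h5]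
          simp [h4]
      · simp [h3]
    · simp [h2]
  · simp [h1]

/-- E8: entropy of two conditionally independent copies -/
lemma ent_cprod {α β γ : Type*} {m : Om → ℝ} (hm : IsPM m) (c : Om → γ) (f : Om → α)
    (g : Om → β) :
    ent (cprod m c) (fun w => ((f w.1, g w.2), c w.1)) + ent m c =
      ent m (pr f c) + ent m (pr g c) := by
  have e1 := ent_comp_of_mp (mp_cprod_fst hm c) (pr f c)
  have e2 := ent_comp_of_mp (mp_cprod_snd hm c) (pr g c)
  have e3 := ent_comp_of_mp (mp_cprod_fst hm c) c
  rw [← e1, ← e2, ← e3]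
  unfold ent
  rw [← Finset.sum_add_distrib, ← Finset.sum_add_distrib]
  refine Finset.sum_congr rfl fun w _ => ?_
  rw [fib_comp_of_mp (mp_cprod_fst hm c), fib_comp_of_mp (mp_cprod_snd hm c),
    fib_comp_of_mp (mp_cprod_fst hm c)]
  by_cases h : c w.1 = c w.2
  · rcases ((isPM_cprod hm c).nonneg w).eq_or_lt with h0 | h0
    · rw [← h0]; simp
    · have h1 : 0 < m w.1 := by
        rcases (hm.nonneg w.1).eq_or_lt with h1 | h1
        · exfalso; unfold cprod at h0; rw [if_pos h, ← h1] at h0; simp at h0
        · exact h1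
      have h2 : 0 < m w.2 := by
        rcases (hm.nonneg w.2).eq_or_lt with h1 | h1
        · exfalso; unfold cprod at h0; rw [if_pos h, ← h1] at h0; simp at h0
        · exact h1
      rw [fib_cprod m c f g h]
      have p1 := fib_pos hm (pr f c) h1
      have p2 := fib_pos hm (pr g c) h2
      have p3 := fib_pos hm c h1
      rw [Real.log_div (mul_pos p1 p2).ne' p3.ne', Real.log_mul p1.ne' p2.ne']
      ring
  · rw [cprod_eq_zero m c h]; ring

end

end H2INV
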