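import Mathlib
import Pool.Agent.H2.INV.Ent

/-! Finite entropy calculus, part 2: powers, uniform laws, Pinsker, mixtures. -/

namespace H2INV

open Finset BigOperators

noncomputable section

variable {Om : Type*} [Fintype Om] {Om' : Type*} [Fintype Om'] {Om'' : Type*} [Fintype Om'']

/-! ### measure preserving maps -/

omit [Fintype Om''] in
lemma MP.comp {m : Om'' → ℝ} {m' : Om' → ℝ} {m'' : Om → ℝ} {ψ : Om → Om'} {φ : Om' → Om''}
    (h : MP m'' ψ m') (h' : MP m' φ m) : MP m'' (fun w => φ (ψ w)) m := by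
  intro w
  rw [law_comp, ← h' w]
  have : law m'' ψ = m' := funext h
  rw [this]

omit [Fintype Om'] in
lemma MP.law_eq {m : Om' → ℝ} {m' : Om → ℝ} {φ : Om → Om'} (h : MP m' φ m) : law m' φ = m :=
  funext h

lemma MP.sum_eq {m : Om' → ℝ} {m' : Om → ℝ} {φ : Om → Om'} (h : MP m' φ m) (u : Om' → ℝ) :
    ∑ w, m' w * u (φ w) = ∑ x, m x * u x := by
  rw [← sum_law_mul m' φ u, h.law_eq]

lemma MP.isPM {m : Om' → ℝ} {m' : Om → ℝ} {φ : Om → Om'} (h : MP m' φ m) (hm : IsPM m') :
    IsPM m := by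
  rw [← h.law_eq]; exact isPM_law hm φ

/-- criterion through expectations of all test functions -/
lemma mp_of_sum {m : Om' → ℝ} {m' : Om → ℝ} {φ : Om → Om'}
    (h : ∀ u : Om' → ℝ, ∑ w, m' w * u (φ w) = ∑ x, m x * u x) : MP m' φ m := by
  classical
  intro x
  have h1 := h (fun y => if y = x then 1 else 0)
  simp only [mul_ite, mul_one, mul_zero] at h1
  rw [Finset.sum_ite_eq'] at h1
  simp only [Finset.mem_univ, if_true] at h1
  rw [← h1]
  unfold law
  exact Finset.sum_congr rfl fun w _ => by congr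

lemma law_eq_of_mp {α : Type*} {m : Om' → ℝ} {m' : Om → ℝ} {φ : Om → Om'} (h : MP m' φ m)
    (f : Om' → α) : law m' (fun w => f (φ w)) = law m f := by
  rw [law_comp, h.law_eq]

lemma mp_prodMap {Om3 Om4 : Type*} [Fintype Om3] [Fintype Om4]
    {m1' : Om → ℝ} {m1 : Om' → ℝ} {m2' : Om3 → ℝ} {m2 : Om4 → ℝ} {φ : Om → Om'} {ψ : Om3 → Om4}
    (h1 : MP m1' φ m1) (h2 : MP m2' ψ m2) :
    MP (prodPM m1' m2') (fun w => (φ w.1, ψ w.2)) (prodPM m1 m2) := by
  refine mp_of_sum fun u => ?_
  unfold prodPM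
  rw [Fintype.sum_prod_type, Fintype.sum_prod_type]
  have e1 : ∀ a b, m1' a * m2' b * u (φ a, ψ b) = m1' a * (m2' b * u (φ a, ψ b)) := by
    intros; ring
  simp only [e1, ← Finset.mul_sum]
  have e2 : ∀ a, ∑ b, m2' b * u (φ a, ψ b) = ∑ b, m2 b * u (φ a, b) :=
    fun a => h2.sum_eq (fun b => u (φ a, b))
  simp only [e2]
  rw [h1.sum_eq (fun a => ∑ b, m2 b * u (a, b))]
  simp only [Finset.mul_sum]
  exact Finset.sum_congr rfl fun a _ => Finset.sum_congr rfl fun b _ => by ring

lemma mp_swap (m : Om → ℝ) (m' : Om' → ℝ) : MP (prodPM m m') Prod.swap (prodPM m' m) :=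
  mp_of_equiv (Equiv.prodComm _ _) fun w => by simp [prodPM, mul_comm]

lemma mp_assoc (m : Om → ℝ) (m' : Om' → ℝ) (m'' : Om'' → ℝ) :
    MP (prodPM (prodPM m m') m'') (fun w => (w.1.1, (w.1.2, w.2))) (prodPM m (prodPM m' m'')) :=
  mp_of_equiv (Equiv.prodAssoc _ _ _) fun w => by simp [prodPM, mul_assoc]

lemma mp_id (m : Om → ℝ) : MP m (fun w => w) m :=
  mp_of_equiv (Equiv.refl _) fun _ => rfl

/-! ### powers -/

section pi
variable {ι κ : Type*} [Fintype ι] [DecidableEq ι] [Fintype κ] [DecidableEq κ]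

/-- `ι`-fold power -/
def piPM (ι : Type*) [Fintype ι] (m : Om → ℝ) : (ι → Om) → ℝ := fun w => ∏ i, m (w i)

lemma isPM_pi {m : Om → ℝ} (hm : IsPM m) : IsPM (piPM ι m) where
  nonneg w := Finset.prod_nonneg fun i _ => hm.nonneg _
  sum_one := by
    unfold piPM
    have := (Finset.prod_univ_sum (fun _ : ι => (Finset.univ : Finset Om)) (fun _ x => m x)).symm
    rw [Fintype.piFinset_univ] at this
    rw [this]
    simp [hm.sum_one]

omit [DecidableEq ι] in
lemma mp_pi_equiv (m : Om → ℝ) (e : ι ≃ κ) : MP (piPM κ m) (fun w i => w (e i)) (piPM ι m) :=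
  mp_of_equiv (Equiv.arrowCongr e.symm (Equiv.refl Om)) fun w => by
    unfold piPM
    simp only [Equiv.arrowCongr_apply, Equiv.coe_refl, Function.comp, Equiv.symm_symm, id]
    exact Equiv.prod_comp e (fun i => m (w i))

lemma mp_pi_sum (m : Om → ℝ) :
    MP (piPM (ι ⊕ κ) m) (fun w => ((fun i => w (Sum.inl i)), (fun i => w (Sum.inr i))))
      (prodPM (piPM ι m) (piPM κ m)) :=
  mp_of_equiv (Equiv.sumArrowEquivProdArrow ι κ Om) fun w => by
    unfold piPM prodPM
    rw [Fintype.prod_sum_type]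
    rfl

lemma mp_pi_curry (m : Om → ℝ) :
    MP (piPM (ι × κ) m) (fun w i k => w (i, k)) (piPM ι (piPM κ m)) :=
  mp_of_equiv (Equiv.curry ι κ Om) fun w => by
    unfold piPM
    rw [Fintype.prod_prod_type]
    rfl

lemma mp_pi_comp {m : Om → ℝ} (hm : IsPM m) (e : ι → κ) (he : Function.Injective e) :
    MP (piPM κ m) (fun w i => w (e i)) (piPM ι m) := by
  classical
  let e' : ι ⊕ {k // ¬ k ∈ Set.range e} ≃ κ :=
    (Equiv.sumCongr (Equiv.ofInjective e he) (Equiv.refl _)).trans
      (Equiv.sumCompl (fun k => k ∈ Set.range e))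
  have h1 := mp_pi_equiv m e'
  have h2 := mp_pi_sum (ι := ι) (κ := {k // ¬ k ∈ Set.range e}) m
  have h3 := mp_fst (m := piPM ι m) (isPM_pi (ι := {k // ¬ k ∈ Set.range e}) hm)
  have h4 := (h1.comp h2).comp h3
  have h5 : (fun (w : κ → Om) (i : ι) => w (e' (Sum.inl i))) = fun w i => w (e i) := by
    funext w i
    congr 1
  rw [← h5]
  exact h4

lemma mp_pi_eval {m : Om → ℝ} (hm : IsPM m) (i : ι) : MP (piPM ι m) (fun w => w i) m := by
  have h1 := mp_pi_comp (ι := Unit) hm (fun _ => i) (fun _ _ _ => rfl)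
  have h2 : MP (piPM Unit m) (fun w => w ()) m :=
    mp_of_equiv (Equiv.funUnique Unit Om) fun w => by
      unfold piPM; simp
  exact h1.comp h2

/-- two different coordinates are independent copies -/
lemma mp_pi_pair {m : Om → ℝ} (hm : IsPM m) {i j : ι} (h : i ≠ j) :
    MP (piPM ι m) (fun w => (w i, w j)) (prodPM m m) := by
  have h1 := mp_pi_comp (ι := Unit ⊕ Unit) hm (Sum.elim (fun _ => i) (fun _ => j)) (by
    rintro (⟨⟩ | ⟨⟩) (⟨⟩ | ⟨⟩) hh
    · rfl
    · exact (h hh).elim
    · exact (h hh.symm).elim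
    · rfl)
  have h2 := mp_pi_sum (ι := Unit) (κ := Unit) m
  have h3 : MP (piPM Unit m) (fun w => w ()) m :=
    mp_of_equiv (Equiv.funUnique Unit Om) fun w => by
      unfold piPM; simp
  exact (h1.comp h2).comp (mp_prodMap h3 h3)

lemma fib_pi {α : Type*} (m : Om → ℝ) (f : Om → α) (w : ι → Om) :
    fib (piPM ι m) (fun w i => f (w i)) w = ∏ i, fib m f (w i) := by
  classical
  unfold fib piPM
  rw [Finset.prod_univ_sum, Fintype.piFinset_univ]
  refine Finset.sum_congr rfl fun x _ => ?_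
  by_cases h : (fun i => f (x i)) = fun i => f (w i)
  · rw [if_pos h]
    exact Finset.prod_congr rfl fun i _ => by rw [if_pos (congrFun h i)]
  · rw [if_neg h]
    obtain ⟨i, hi⟩ := Function.ne_iff.1 h
    exact (Finset.prod_eq_zero (Finset.mem_univ i) (by rw [if_neg hi])).symm

lemma ent_pi {α : Type*} {m : Om → ℝ} (hm : IsPM m) (f : Om → α) :
    ent (piPM ι m) (fun w i => f (w i)) = Fintype.card ι * ent m f := by
  classical
  unfold ent
  have h1 : ∀ w : ι → Om, piPM ι m w * (-Real.log (fib (piPM ι m) (fun w i => f (w i)) w)) =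
      ∑ i, piPM ι m w * (-Real.log (fib m f (w i))) := by
    intro w
    rw [fib_pi]
    by_cases h0 : ∀ i, 0 < m (w i)
    · rw [Real.log_prod (s := Finset.univ) (fun i _ => (fib_pos hm f (h0 i)).ne'),
        ← Finset.mul_sum, Finset.sum_neg_distrib]
    · push Not at h0
      obtain ⟨i, hi⟩ := h0
      have : piPM ι m w = 0 :=
        Finset.prod_eq_zero (Finset.mem_univ i) (le_antisymm hi (hm.nonneg _))
      simp [this]
  rw [Finset.sum_congr rfl fun w _ => h1 w, Finset.sum_comm]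
  have h2 : ∀ i : ι, ∑ w : ι → Om, piPM ι m w * (-Real.log (fib m f (w i))) =
      ∑ x, m x * (-Real.log (fib m f x)) :=
    fun i => (mp_pi_eval hm i).sum_eq (fun x => -Real.log (fib m f x))
  rw [Finset.sum_congr rfl fun i _ => h2 i]
  simp

end pi

/-! ### uniform laws -/

/-- uniform probability on a finite set -/
def unifPM (A : Finset Om) : Om → ℝ := by classical exact fun w => if w ∈ A then (A.card : ℝ)⁻¹ else 0

lemma isPM_unif {A : Finset Om} (hA : A.Nonempty) : IsPM (unifPM A) where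
  nonneg w := by unfold unifPM; split_ifs; exacts [by positivity, le_rfl]
  sum_one := by
    classical
    unfold unifPM
    have hc : (A.card : ℝ) ≠ 0 := by exact_mod_cast hA.card_pos.ne'
    rw [Finset.sum_ite_mem]
    simp [hc]

/-- entropy of an injective function of a uniform variable -/
lemma ent_unif {α : Type*} {A : Finset Om} (hA : A.Nonempty) {f : Om → α}
    (hf : Set.InjOn f A) : ent (unifPM A) f = Real.log A.card := by
  classical
  unfold ent
  have h1 : ∀ w, unifPM A w * (-Real.log (fib (unifPM A) f w)) =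
      unifPM A w * Real.log A.card := by
    intro w
    by_cases hw : w ∈ A
    · have : fib (unifPM A) f w = (A.card : ℝ)⁻¹ := by
        unfold fib
        rw [Finset.sum_eq_single w]
        · simp [unifPM, hw]
        · intro b _ hb
          by_cases hbA : b ∈ A
          · rw [if_neg fun h => hb (hf hbA hw h)]
          · simp [unifPM, hbA]
        · simp
      rw [this, Real.log_inv, neg_neg]
    · simp [unifPM, hw]
  rw [Finset.sum_congr rfl fun w _ => h1 w, ← Finset.sum_mul, (isPM_unif hA).sum_one, one_mul]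

/-! ### mixtures with revealed label -/

section mix
variable {κ : Type*} [Fintype κ] {O : κ → Type*} [∀ k, Fintype (O k)]

/-- mixture of probability spaces with the label kept -/
def sigmaPM (p : κ → ℝ) (m : ∀ k, O k → ℝ) : (Σ k, O k) → ℝ := fun w => p w.1 * m w.1 w.2

lemma isPM_sigma {p : κ → ℝ} {m : ∀ k, O k → ℝ} (hp : IsPM p) (hm : ∀ k, IsPM (m k)) :
    IsPM (sigmaPM p m) where
  nonneg w := mul_nonneg (hp.nonneg _) ((hm _).nonneg _)
  sum_one := by
    unfold sigmaPM
    rw [Fintype.sum_sigma]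
    simp only [← Finset.mul_sum, (hm _).sum_one, mul_one, hp.sum_one]

/-- the fibres of a function revealing the label -/
lemma fib_sigma {α : Type*} (p : κ → ℝ) (m : ∀ k, O k → ℝ) (f : (Σ k, O k) → α)
    (hf : ∀ w w', f w = f w' → w.1 = w'.1) (k : κ) (w : O k) :
    fib (sigmaPM p m) f ⟨k, w⟩ = p k * fib (m k) (fun w => f ⟨k, w⟩) w := by
  classical
  unfold fib sigmaPM
  rw [Fintype.sum_sigma, Finset.sum_eq_single k]
  · rw [Finset.mul_sum]
    exact Finset.sum_congr rfl fun x _ => by split_ifs <;> simp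
  · intro b _ hb
    refine Finset.sum_eq_zero fun x _ => ?_
    rw [if_neg fun h => hb (hf _ _ h)]
  · simp

lemma ent_sigma {α : Type*} {p : κ → ℝ} {m : ∀ k, O k → ℝ} (hp : IsPM p)
    (hm : ∀ k, IsPM (m k)) (f : (Σ k, O k) → α) (hf : ∀ w w', f w = f w' → w.1 = w'.1) :
    ent (sigmaPM p m) f = ∑ k, (Real.negMulLog (p k) + p k * ent (m k) (fun w => f ⟨k, w⟩)) := by
  unfold ent
  rw [Fintype.sum_sigma]
  refine Finset.sum_congr rfl fun k _ => ?_
  have h1 : ∀ w : O k, sigmaPM p m ⟨k, w⟩ * (-Real.log (fib (sigmaPM p m) f ⟨k, w⟩)) =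
      m k w * Real.negMulLog (p k) +
        p k * (m k w * (-Real.log (fib (m k) (fun w => f ⟨k, w⟩) w))) := by
    intro w
    rw [fib_sigma p m f hf]
    unfold sigmaPM Real.negMulLog
    simp only
    rcases (hp.nonneg k).eq_or_lt with h0 | h0
    · simp [← h0]
    rcases ((hm k).nonneg w).eq_or_lt with h1 | h1
    · simp [← h1]
    rw [Real.log_mul h0.ne' (fib_pos (hm k) _ h1).ne']
    ring
  rw [Finset.sum_congr rfl fun w _ => h1 w, Finset.sum_add_distrib, ← Finset.sum_mul,
    (hm k).sum_one, one_mul, ← Finset.mul_sum]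

/-- conditional entropies average over a revealed label -/
lemma cent_sigma {α β : Type*} {p : κ → ℝ} {m : ∀ k, O k → ℝ} (hp : IsPM p)
    (hm : ∀ k, IsPM (m k)) (f : (Σ k, O k) → α) (g : (Σ k, O k) → β)
    (hg : ∀ w w', g w = g w' → w.1 = w'.1) :
    cent (sigmaPM p m) f g = ∑ k, p k * cent (m k) (fun w => f ⟨k, w⟩) (fun w => g ⟨k, w⟩) := by
  unfold cent
  rw [ent_sigma hp hm g hg, ent_sigma hp hm (pr f g) (fun w w' h => hg w w' (by simpa using
    ((pr_eq f g w w').1 h).2)), ← Finset.sum_sub_distrib]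
  refine Finset.sum_congr rfl fun k _ => ?_
  have : (fun w => pr f g ⟨k, w⟩) = pr (fun w : O k => f ⟨k, w⟩) (fun w => g ⟨k, w⟩) := rfl
  rw [this]; ring

end mix

end

end H2INV
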