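import Mathlib
import Pool.Agent.H2.INV.Ent2

/-! Finite entropy calculus, part 3: conditional entropy. -/

namespace H2INV

open Finset BigOperators

noncomputable section

/-! ### a few more facts on entropy -/

section more
variable {Om : Type*} [Fintype Om]

lemma cent_congr {α α' β β' : Type*} (m : Om → ℝ) {f : Om → α} {g : Om → β} {f' : Om → α'}
    {g' : Om → β'} (h1 : ∀ w w', g w = g w' ↔ g' w = g' w')
    (h2 : ∀ w w', g w = g w' → (f w = f w' ↔ f' w = f' w')) : cent m f g = cent m f' g' := by
  unfold cent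
  rw [ent_congr m h1, ent_congr m (f := pr f g) (g := pr f' g')]
  intro w w'
  rw [pr_eq, pr_eq, ← h1]
  constructor
  · rintro ⟨a, b⟩; exact ⟨(h2 _ _ b).1 a, b⟩
  · rintro ⟨a, b⟩; exact ⟨(h2 _ _ b).2 a, b⟩

lemma cent_nonneg {α β : Type*} {m : Om → ℝ} (hm : IsPM m) (f : Om → α) (g : Om → β) :
    0 ≤ cent m f g := by
  unfold cent
  have := ent_mono hm (f := g) (g := pr f g) (fun w w' h => ((pr_eq f g w w').1 h).2)
  linarith

/-- conditioning on more decreases the conditional entropy -/
lemma cent_anti {α β γ : Type*} {m : Om → ℝ} (hm : IsPM m) (f : Om → α) {g : Om → β}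
    {g' : Om → γ} (h : ∀ w w', g' w = g' w' → g w = g w') : cent m f g' ≤ cent m f g := by
  have h1 := ent_submod hm f g' g
  have e1 : ent m (pr (pr f g') g) = ent m (pr f g') := ent_congr m fun w w' => by
    simp only [pr_eq]
    exact ⟨fun a => a.1, fun a => ⟨a, h _ _ a.2⟩⟩
  have e2 : ent m (pr g' g) = ent m g' := ent_congr m fun w w' => by
    simp only [pr_eq]
    exact ⟨fun a => a.1, fun a => ⟨a, h _ _ a⟩⟩
  unfold cent
  linarith

lemma cent_le_ent {α β : Type*} {m : Om → ℝ} (hm : IsPM m) (f : Om → α) (g : Om → β) :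
    cent m f g ≤ ent m f := by
  have h := cent_anti hm f (g := fun _ => ()) (g' := g) (fun _ _ _ => rfl)
  have e1 : cent m f (fun _ : Om => ()) = ent m f := by
    unfold cent
    rw [ent_const hm (f := fun _ : Om => ()) (fun _ _ => rfl), sub_zero]
    exact ent_congr m fun w w' => by simp [pr]
  rwa [e1] at h

lemma cent_le_log_card {α β : Type*} [Fintype α] [Nonempty α] {m : Om → ℝ} (hm : IsPM m)
    (f : Om → α) (g : Om → β) : cent m f g ≤ Real.log (Fintype.card α) :=
  (cent_le_ent hm f g).trans (ent_le_log_card hm f)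

/-- a function of `f` (given `g`) has smaller conditional entropy -/
lemma cent_mono {α α' β : Type*} {m : Om → ℝ} (hm : IsPM m) {f : Om → α} {f' : Om → α'}
    {g : Om → β} (h : ∀ w w', g w = g w' → f' w = f' w' → f w = f w') :
    cent m f g ≤ cent m f' g := by
  unfold cent
  have := ent_mono hm (f := pr f g) (g := pr f' g) (fun w w' hh => by
    rw [pr_eq] at hh ⊢
    exact ⟨h _ _ hh.2 hh.1, hh.2⟩)
  linarith

/-- chain rule -/
lemma cent_chain {α β γ : Type*} (m : Om → ℝ) (f : Om → α) (g : Om → β) (h : Om → γ) :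
    cent m (pr f g) h = cent m g h + cent m f (pr g h) := by
  unfold cent
  have : ent m (pr (pr f g) h) = ent m (pr f (pr g h)) := ent_congr m fun w w' => by
    simp only [pr_eq]; tauto
  rw [this]; ring

/-- average of the entropies of the conditional laws (no finiteness of the labels needed) -/
lemma cent_eq_avg {α β : Type*} {m : Om → ℝ} (hm : IsPM m) (f : Om → α) (g : Om → β) :
    cent m f g = ∑ w, m w * ent (condPM m g (g w)) f := by
  classical
  let g' : Om → Set.range g := fun w => ⟨g w, w, rfl⟩
  have h1 : cent m f g = cent m f g' := cent_congr m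
    (fun w w' => (Subtype.ext_iff (a1 := g' w) (a2 := g' w')).symm) (fun _ _ _ => Iff.rfl)
  have : Fintype (Set.range g) := Fintype.ofFinite _
  rw [h1, cent_eq_sum hm f g', sum_law_mul m g' (fun b => ent (condPM m g' b) f)]
  refine Finset.sum_congr rfl fun w _ => ?_
  have e : condPM m g' (g' w) = condPM m g (g w) := by
    funext x
    have e1 : law m g' (g' w) = law m g (g w) := by
      rw [← fib_eq_law, ← fib_eq_law]
      exact fib_congr m (fun a b => Subtype.ext_iff) w
    unfold condPM
    rw [e1]
    by_cases hx : g x = g w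
    · rw [if_pos hx, if_pos (Subtype.ext hx)]
    · rw [if_neg hx, if_neg (fun h => hx (congrArg Subtype.val h))]
  rw [e]

end more

end

end H2INV
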