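import Pool.Agent.H2.INV.Ent2
import Pool.Agent.H2.INV.Ent3
import Pool.Agent.H9.F2.Bsg
import Pool.Agent.H9.F2.Fam

/-! The entropic BSG lemma for families (four copies). -/

set_option autoImplicit false

namespace H2INV

open Finset F2

noncomputable section

section raw
variable {Om : Type*} [Fintype Om]

/-- conditioning the pair of conditionally independent copies on the common label gives the
product of the conditional laws -/
lemma condPM_cprod {γ : Type*} {m : Om → ℝ} (hm : IsPM m) (c : Om → γ) (a : Om)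
    (ha : 0 < m a) :
    condPM (cprod m c) (fun w => c w.1) (c a) =
      prodPM (condPM m c (c a)) (condPM m c (c a)) := by
  funext w
  have h1 : law (cprod m c) (fun w => c w.1) (c a) = law m c (c a) := by
    exact congrFun (law_eq_of_mp (mp_cprod_fst hm c) c) (c a)
  have h0 : 0 < law m c (c a) := lt_of_lt_of_le ha (le_law hm c a)
  unfold condPM prodPM
  rw [h1]
  unfold cprod
  by_cases h2 : c w.1 = c a
  · by_cases h3 : c w.2 = c a
    · have h4 : fib m c w.1 = law m c (c a) := by rw [fib_eq_law, h2]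
      simp only [h2, h3, if_true, h4]
      field_simp
    · have h4 : ¬ c w.1 = c w.2 := fun h => h3 (h ▸ h2)
      simp [h3, h4]
  · simp [h2]

/-- sums over labels: average over the common label of the doubled conditional laws -/
lemma cent_cprod {α γ : Type*} {m : Om → ℝ} (hm : IsPM m) (c : Om → γ) (f : Om × Om → α) :
    cent (cprod m c) f (fun w => c w.1) =
      ∑ w, m w * ent (prodPM (condPM m c (c w)) (condPM m c (c w))) f := by
  rw [cent_eq_avg (isPM_cprod hm c)]
  have h1 := (mp_cprod_fst hm c).sum_eq (fun w => ent (condPM (cprod m c) (fun w => c w.1) (c w)) f)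
  rw [h1]
  refine Finset.sum_congr rfl fun w _ => ?_
  rcases (hm.nonneg w).eq_or_lt with h0 | h0
  · simp [← h0]
  · rw [condPM_cprod hm c w h0]

end raw

variable {E : Type} [AddCommGroup E]

/-- L8 -/
lemma SD_eq (U : Fam E) :
    SD U = cent (cprod U.m U.J) (fun w => U.X w.1 + U.X w.2) (fun w => U.J w.1) := by
  unfold SD
  rw [cent_cprod U.hm]
  refine Finset.sum_congr rfl fun w _ => ?_
  rcases (U.hm.nonneg w).eq_or_lt with h0 | h0
  · simp [← h0]
  · congr 1
    have hl : 0 < law U.m U.J (U.J w) := lt_of_lt_of_le h0 (le_law U.hm U.J w)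
    have hp := isPM_cond U.hm U.J hl
    have hm' : (sl U w).m = condPM U.m U.J (U.J w) := by
      unfold sl; simp only [if_pos h0]
    have e1 : H (add (sl U w) (sl U w)) = cent (prodPM (condPM U.m U.J (U.J w))
        (condPM U.m U.J (U.J w))) (fun w => U.X w.1 + U.X w.2) (fun w => (U.J w.1, U.J w.2)) := by
      unfold H add
      simp only [hm']
      rfl
    rw [e1]
    unfold cent
    have hpp := isPM_prod hp hp
    have hs : ∀ v, 0 < prodPM (condPM U.m U.J (U.J w)) (condPM U.m U.J (U.J w)) v →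
        U.J v.1 = U.J w ∧ U.J v.2 = U.J w := by
      intro v hv
      unfold prodPM condPM at hv
      by_cases h1 : U.J v.1 = U.J w
      · by_cases h2 : U.J v.2 = U.J w
        · exact ⟨h1, h2⟩
        · simp [h2] at hv
      · simp [h1] at hv
    have e2 : ent (prodPM (condPM U.m U.J (U.J w)) (condPM U.m U.J (U.J w)))
        (fun w => (U.J w.1, U.J w.2)) = 0 := by
      rw [H9F2.ent_congr_supp hpp (g := fun _ => ())]
      · exact ent_const hpp fun _ _ => rfl
      · intro v v' hv hv'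
        simp [hs v hv, hs v' hv']
    have e3 : ent (prodPM (condPM U.m U.J (U.J w)) (condPM U.m U.J (U.J w)))
        (pr (fun w => U.X w.1 + U.X w.2) (fun w => (U.J w.1, U.J w.2))) =
        ent (prodPM (condPM U.m U.J (U.J w)) (condPM U.m U.J (U.J w)))
        (fun w => U.X w.1 + U.X w.2) := by
      refine H9F2.ent_congr_supp hpp fun v v' hv hv' => ?_
      simp [pr, hs v hv, hs v' hv']
    rw [e2, e3, sub_zero]

lemma cprod_congr {Om : Type*} [Fintype Om] {γ γ' : Type*} (m : Om → ℝ) {c : Om → γ}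
    {c' : Om → γ'} (h : ∀ w w', c w = c w' ↔ c' w = c' w') : cprod m c = cprod m c' := by
  classical
  funext w
  unfold cprod
  by_cases h1 : c w.1 = c w.2
  · rw [if_pos h1, if_pos ((h _ _).1 h1), fib_congr m h]
  · rw [if_neg h1, if_neg (fun h2 => h1 ((h _ _).2 h2))]

/-- `((1,2),(3,4)) ↦ ((1,3),(2,4))` -/
lemma mp_mid {Om : Type*} [Fintype Om] (m : Om → ℝ) :
    MP (prodPM (prodPM m m) (prodPM m m)) (fun w => ((w.1.1, w.2.1), (w.1.2, w.2.2)))
      (prodPM (prodPM m m) (prodPM m m)) :=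
  mp_of_equiv (Equiv.prodProdProdComm Om Om Om Om) fun w => by
    simp only [prodPM, Equiv.prodProdProdComm_apply]; ring

/-- `((1,2),(3,4)) ↦ ((2,3),(1,4))` -/
lemma mp_mid' {Om : Type*} [Fintype Om] (m : Om → ℝ) :
    MP (prodPM (prodPM m m) (prodPM m m)) (fun w => ((w.1.2, w.2.1), (w.1.1, w.2.2)))
      (prodPM (prodPM m m) (prodPM m m)) := by
  have h1 : MP (prodPM (prodPM m m) (prodPM m m)) (fun w => ((w.1.2, w.1.1), w.2))
      (prodPM (prodPM m m) (prodPM m m)) :=
    mp_prodMap (mp_swap m m) (mp_id (prodPM m m))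
  exact h1.comp (mp_mid m)

/-- L10: BSG for four independent copies -/
theorem SD_fold_le [Two E] (U : Fam E) :
    SD (add (fold U U) (fold U U)) + 2 * H (add (fold U U) (fold U U)) ≤
      3 * (2 * H (add U U) - H (add (add U U) (add U U))) := by
  set F := add (fold U U) (fold U U) with hF
  set m2 := prodPM U.m U.m with hm2
  set μ := prodPM m2 m2 with hμ
  have hm2P : IsPM m2 := isPM_prod U.hm U.hm
  have hμP : IsPM μ := isPM_prod hm2P hm2P
  let X := U.X
  let J := U.J
  let A : (U.Om × U.Om) × (U.Om × U.Om) → E := fun w => X w.1.1 + X w.2.1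
  let C : (U.Om × U.Om) × (U.Om × U.Om) → E := fun w => X w.1.1 + X w.1.2
  let B : (U.Om × U.Om) × (U.Om × U.Om) → E := fun w => A w + C w
  let S : (U.Om × U.Om) × (U.Om × U.Om) → E := fun w => X w.1.1 + X w.1.2 + (X w.2.1 + X w.2.2)
  let jj : (U.Om × U.Om) × (U.Om × U.Om) → (U.St × U.St) × (U.St × U.St) :=
    fun w => ((J w.1.1, J w.1.2), (J w.2.1, J w.2.2))
  let f2 : U.Om × U.Om → E × (U.St × U.St) := fun w => (X w.1 + X w.2, (J w.1, J w.2))
  set e2 := ent m2 f2 with he2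
  set eJ := ent U.m J with heJ
  have hX2 : ∀ x : E, x + x = 0 := Two.two
  let FJ : (U.Om × U.Om) × (U.Om × U.Om) → (E × U.St × U.St) × (E × U.St × U.St) :=
    fun w => ((X w.1.1 + X w.1.2, J w.1.1, J w.1.2), (X w.2.1 + X w.2.2, J w.2.1, J w.2.2))
  have hk : ∀ w w', FJ w = FJ w' ↔ pr C (pr S jj) w = pr C (pr S jj) w' := by
    intro w w'
    simp only [FJ, pr, Prod.mk.injEq, C, S, jj]
    constructor
    · rintro ⟨⟨a, b, c⟩, ⟨d, e, f⟩⟩
      exact ⟨a, by rw [a, d], ⟨b, c⟩, e, f⟩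
    · rintro ⟨a, s, ⟨b, c⟩, e, f⟩
      rw [a, add_right_inj] at s
      exact ⟨⟨a, b, c⟩, ⟨s, e, f⟩⟩
  have hbsg := H9F2.bsg hX2 hμP A B C (fun w => by
    show C w = A w + (A w + C w)
    rw [← add_assoc, hX2, zero_add]) (pr S jj)
  have hSD : SD F = cent (cprod μ (pr C (pr S jj))) (fun w => A w.1 + A w.2)
      (fun w => pr C (pr S jj) w.1) := by
    have h1 : SD F = cent (cprod μ FJ) (fun w => A w.1 + A w.2) (fun w => FJ w.1) := SD_eq F
    rw [h1, cprod_congr μ hk]
    exact cent_congr _ (fun w w' => hk w.1 w'.1) (fun _ _ _ => Iff.rfl)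
  -- entropies of the four pieces
  have hprod : ent μ (fun w => (f2 w.1, f2 w.2)) = 2 * e2 := by
    rw [hμ, ent_prod hm2P hm2P]; ring
  have eA : ent μ (pr A (pr S jj)) = 2 * e2 := by
    rw [← hprod, ← ent_comp_of_mp (mp_mid U.m) (fun w => (f2 w.1, f2 w.2))]
    refine ent_congr _ fun w w' => ?_
    simp only [pr, Prod.mk.injEq, A, S, jj, f2]
    have k1 : X w.1.1 + X w.1.2 + (X w.2.1 + X w.2.2) =
      (X w.1.1 + X w.2.1) + (X w.1.2 + X w.2.2) := by abel
    have k2 : X w'.1.1 + X w'.1.2 + (X w'.2.1 + X w'.2.2) =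
      (X w'.1.1 + X w'.2.1) + (X w'.1.2 + X w'.2.2) := by abel
    rw [k1, k2]
    constructor
    · rintro ⟨a, s, ⟨b, c⟩, e, f⟩
      rw [a, add_right_inj] at s
      exact ⟨⟨a, b, e⟩, s, c, f⟩
    · rintro ⟨⟨a, b, e⟩, s, c, f⟩
      exact ⟨a, by rw [a, s], ⟨b, c⟩, e, f⟩
  have eB : ent μ (pr B (pr S jj)) = 2 * e2 := by
    rw [← hprod, ← ent_comp_of_mp (mp_mid' U.m) (fun w => (f2 w.1, f2 w.2))]
    refine ent_congr _ fun w w' => ?_
    have kB : ∀ w, B w = X w.1.2 + X w.2.1 := fun w => by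
      show X w.1.1 + X w.2.1 + (X w.1.1 + X w.1.2) = _
      have : X w.1.1 + X w.2.1 + (X w.1.1 + X w.1.2) =
        (X w.1.1 + X w.1.1) + (X w.1.2 + X w.2.1) := by abel
      rw [this, hX2, zero_add]
    simp only [pr, Prod.mk.injEq, S, jj, f2, kB]
    have k1 : X w.1.1 + X w.1.2 + (X w.2.1 + X w.2.2) =
      (X w.1.2 + X w.2.1) + (X w.1.1 + X w.2.2) := by abel
    have k2 : X w'.1.1 + X w'.1.2 + (X w'.2.1 + X w'.2.2) =
      (X w'.1.2 + X w'.2.1) + (X w'.1.1 + X w'.2.2) := by abel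
    rw [k1, k2]
    constructor
    · rintro ⟨a, s, ⟨b, c⟩, e, f⟩
      rw [a, add_right_inj] at s
      exact ⟨⟨a, c, e⟩, s, b, f⟩
    · rintro ⟨⟨a, c, e⟩, s, b, f⟩
      exact ⟨a, by rw [a, s], ⟨b, c⟩, e, f⟩
  have eC : ent μ (pr C (pr S jj)) = 2 * e2 := by
    rw [← hprod]
    refine ent_congr _ fun w w' => ?_
    simp only [pr, Prod.mk.injEq, C, S, jj, f2]
    constructor
    · rintro ⟨a, s, ⟨b, c⟩, e, f⟩
      rw [a, add_right_inj] at s
      exact ⟨⟨a, b, c⟩, s, e, f⟩
    · rintro ⟨⟨a, b, c⟩, s, e, f⟩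
      exact ⟨a, by rw [a, s], ⟨b, c⟩, e, f⟩
  have eF : ent μ (pr (pr A B) (pr S jj)) = H F + 2 * e2 := by
    have h1 : H F = ent μ (pr A FJ) - ent μ FJ := rfl
    have h2 : ent μ FJ = 2 * e2 := by
      rw [← eC]; exact ent_congr _ hk
    have h3 : ent μ (pr A FJ) = ent μ (pr (pr A B) (pr S jj)) := by
      refine ent_congr _ fun w w' => ?_
      have h4 := hk w w'
      simp only [pr_eq] at h4 ⊢
      rw [h4]
      constructor
      · rintro ⟨a, c, z⟩
        exact ⟨⟨a, by show A w + C w = A w' + C w'; rw [a, c]⟩, z⟩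
      · rintro ⟨⟨a, b⟩, z⟩
        refine ⟨a, ?_, z⟩
        have b' : A w + C w = A w' + C w' := b
        rw [a, add_right_inj] at b'
        exact b'
    rw [h1, h2, h3]; ring
  have ejj : ent μ jj = 4 * eJ := by
    have h1 : ent m2 (fun w => (J w.1, J w.2)) = 2 * eJ := by
      rw [hm2, ent_prod U.hm U.hm]; ring
    have h2 : ent μ jj = ent m2 (fun w => (J w.1, J w.2)) + ent m2 (fun w => (J w.1, J w.2)) := by
      rw [hμ, ← ent_prod hm2P hm2P]
    rw [h2, h1]; ring
  have hH2 : H (add U U) = e2 - 2 * eJ := by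
    have h1 : ent m2 (fun w => (J w.1, J w.2)) = 2 * eJ := by
      rw [hm2, ent_prod U.hm U.hm]; ring
    rw [← h1]
    rfl
  have hH4 : H (add (add U U) (add U U)) = ent μ (pr S jj) - 4 * eJ := by
    rw [← ejj]; rfl
  rw [hSD]
  unfold cent at hbsg ⊢
  rw [hH2, hH4]
  linarith

end

end H2INV
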