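import Mathlib
import Pool.Agent.H2.INV.Ent3

/-! Pinsker type inequality against the uniform law. -/

namespace H2INV

open Finset BigOperators

noncomputable section

lemma log_hel {p q : ℝ} (hp : 0 ≤ p) (hq : 0 < q) :
    2 * p - 2 * (Real.sqrt p * Real.sqrt q) ≤ p * Real.log p - p * Real.log q := by
  rcases hp.eq_or_lt with h0 | h0
  · rw [← h0]; simp
  · have hsp := Real.sqrt_pos.2 h0
    have hsq := Real.sqrt_pos.2 hq
    have h1 := Real.log_le_sub_one_of_pos (div_pos hsq hsp)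
    rw [Real.log_div hsq.ne' hsp.ne', Real.log_sqrt hq.le, Real.log_sqrt h0.le] at h1
    have h2 := mul_le_mul_of_nonneg_left h1 h0.le
    have h3 : p * (Real.sqrt q / Real.sqrt p - 1) = Real.sqrt p * Real.sqrt q - p := by
      have : p = Real.sqrt p * Real.sqrt p := (Real.mul_self_sqrt h0.le).symm
      rw [mul_sub, mul_one, mul_div_assoc']
      congr 1
      rw [div_eq_iff hsp.ne']
      nlinarith
    rw [h3] at h2
    linarith

/-- Pinsker: `‖p - unif‖₁² ≤ 4 (log N - H(p))` -/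
lemma pinsker_unif {α : Type*} [Fintype α] [Nonempty α] {p : α → ℝ} (hp : IsPM p) :
    (∑ x, |p x - (Fintype.card α : ℝ)⁻¹|) ^ 2 ≤
      4 * (Real.log (Fintype.card α) - ∑ x, Real.negMulLog (p x)) := by
  obtain ⟨N, hN⟩ : ∃ N : ℝ, N = (Fintype.card α : ℝ) := ⟨_, rfl⟩
  rw [← hN]
  have hN0 : 0 < N := by rw [hN]; exact_mod_cast Fintype.card_pos
  set q : ℝ := N⁻¹ with hq
  have hq0 : 0 < q := inv_pos.2 hN0
  have hqs : ∑ _x : α, q = 1 := by
    rw [Finset.sum_const, Finset.card_univ, nsmul_eq_mul, ← hN, hq]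
    exact mul_inv_cancel₀ hN0.ne'
  have h1 : ∑ x, (Real.sqrt (p x) - Real.sqrt q) ^ 2 ≤
      Real.log N - ∑ x, Real.negMulLog (p x) := by
    have e : ∀ x, (Real.sqrt (p x) - Real.sqrt q) ^ 2 ≤
        (p x * Real.log (p x) - p x * Real.log q) + (q - p x) := by
      intro x
      have a := log_hel (hp.nonneg x) hq0
      have b := Real.mul_self_sqrt (hp.nonneg x)
      have c := Real.mul_self_sqrt hq0.le
      nlinarith
    have e2 := Finset.sum_le_sum fun x (_ : x ∈ Finset.univ) => e x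
    refine e2.trans (le_of_eq ?_)
    rw [Finset.sum_add_distrib, Finset.sum_sub_distrib, Finset.sum_sub_distrib, hqs, hp.sum_one,
      ← Finset.sum_mul, hp.sum_one, hq, Real.log_inv]
    have : ∑ x, Real.negMulLog (p x) = - ∑ x, p x * Real.log (p x) := by
      rw [← Finset.sum_neg_distrib]
      exact Finset.sum_congr rfl fun x _ => by rw [Real.negMulLog]; ring
    rw [this]; ring
  have h2 : ∑ x, |p x - q| ≤ ∑ x, |Real.sqrt (p x) - Real.sqrt q| *
      (Real.sqrt (p x) + Real.sqrt q) := by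
    refine Finset.sum_le_sum fun x _ => ?_
    have b := Real.mul_self_sqrt (hp.nonneg x)
    have c := Real.mul_self_sqrt hq0.le
    have : p x - q = (Real.sqrt (p x) - Real.sqrt q) * (Real.sqrt (p x) + Real.sqrt q) := by
      linear_combination -b + c
    rw [this, abs_mul, abs_of_nonneg (add_nonneg (Real.sqrt_nonneg (p x)) (Real.sqrt_nonneg q))]
  have h3 := Finset.sum_mul_sq_le_sq_mul_sq Finset.univ
    (fun x => |Real.sqrt (p x) - Real.sqrt q|) (fun x => Real.sqrt (p x) + Real.sqrt q)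
  simp only [sq_abs] at h3
  have h4 : ∑ x, (Real.sqrt (p x) + Real.sqrt q) ^ 2 ≤ 4 := by
    have e : ∀ x, (Real.sqrt (p x) + Real.sqrt q) ^ 2 ≤ 2 * (p x + q) := by
      intro x
      have b := Real.mul_self_sqrt (hp.nonneg x)
      have c := Real.mul_self_sqrt hq0.le
      nlinarith [sq_nonneg (Real.sqrt (p x) - Real.sqrt q)]
    refine (Finset.sum_le_sum fun x _ => e x).trans (le_of_eq ?_)
    rw [← Finset.mul_sum, Finset.sum_add_distrib, hp.sum_one, hqs]; norm_num
  have h0 : 0 ≤ ∑ x, |p x - q| := Finset.sum_nonneg fun x _ => abs_nonneg _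
  have h5 : 0 ≤ ∑ x, (Real.sqrt (p x) - Real.sqrt q) ^ 2 :=
    Finset.sum_nonneg fun x _ => sq_nonneg _
  calc (∑ x, |p x - q|) ^ 2 ≤ (∑ x, |Real.sqrt (p x) - Real.sqrt q| *
      (Real.sqrt (p x) + Real.sqrt q)) ^ 2 := by gcongr
    _ ≤ (∑ x, (Real.sqrt (p x) - Real.sqrt q) ^ 2) *
        ∑ x, (Real.sqrt (p x) + Real.sqrt q) ^ 2 := h3
    _ ≤ (∑ x, (Real.sqrt (p x) - Real.sqrt q) ^ 2) * 4 := by gcongr
    _ ≤ (Real.log N - ∑ x, Real.negMulLog (p x)) * 4 := by gcongr
    _ = _ := by ring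

variable {Om : Type*} [Fintype Om]

lemma pinsker_law {α : Type*} [Fintype α] [Nonempty α] {m : Om → ℝ} (hm : IsPM m)
    (f : Om → α) : (∑ x, |law m f x - (Fintype.card α : ℝ)⁻¹|) ^ 2 ≤
      4 * (Real.log (Fintype.card α) - ent m f) := by
  rw [ent_eq_sum]; exact pinsker_unif (isPM_law hm f)

/-- averaged over the side information -/
lemma pinsker_cent {α β : Type*} [Fintype α] [Nonempty α] {m : Om → ℝ} (hm : IsPM m)
    (f : Om → α) (g : Om → β) :
    (∑ w, m w * ∑ x, |law (condPM m g (g w)) f x - (Fintype.card α : ℝ)⁻¹|) ^ 2 ≤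
      4 * (Real.log (Fintype.card α) - cent m f g) := by
  have h1 : ∀ w, m w * (∑ x, |law (condPM m g (g w)) f x - (Fintype.card α : ℝ)⁻¹|) ^ 2 ≤
      m w * (4 * (Real.log (Fintype.card α) - ent (condPM m g (g w)) f)) := by
    intro w
    rcases (hm.nonneg w).eq_or_lt with h0 | h0
    · rw [← h0]; simp
    · have h2 : 0 < law m g (g w) := lt_of_lt_of_le h0 (le_law hm g w)
      exact mul_le_mul_of_nonneg_left (pinsker_law (isPM_cond hm g h2) f) h0.le
  have h2 := Finset.sum_mul_sq_le_sq_mul_sq Finset.univ (fun w => Real.sqrt (m w))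
    (fun w => Real.sqrt (m w) * ∑ x, |law (condPM m g (g w)) f x - (Fintype.card α : ℝ)⁻¹|)
  have e1 : ∀ w, Real.sqrt (m w) * (Real.sqrt (m w) *
      ∑ x, |law (condPM m g (g w)) f x - (Fintype.card α : ℝ)⁻¹|) =
      m w * ∑ x, |law (condPM m g (g w)) f x - (Fintype.card α : ℝ)⁻¹| := by
    intro w; rw [← mul_assoc, Real.mul_self_sqrt (hm.nonneg w)]
  simp only [e1, mul_pow, Real.sq_sqrt (hm.nonneg _), hm.sum_one, one_mul] at h2
  refine h2.trans ((Finset.sum_le_sum fun w _ => h1 w).trans (le_of_eq ?_))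
  rw [cent_eq_avg hm f g]
  have : ∀ w, m w * (4 * (Real.log (Fintype.card α) - ent (condPM m g (g w)) f)) =
      4 * Real.log (Fintype.card α) * m w - 4 * (m w * ent (condPM m g (g w)) f) := by
    intro w; ring
  rw [Finset.sum_congr rfl fun w _ => this w, Finset.sum_sub_distrib, ← Finset.mul_sum,
    ← Finset.mul_sum, hm.sum_one]
  ring

end

end H2INV
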